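import Mathlib

/-!
Every finite connected simple graph with at least two vertices admits a SIG-metric which is
isometrically embeddable in some `l_1^m`.
-/

namespace Pool.Agent.Results.MP_d14146_co.L1SigMetric

open Finset

variable {V : Type*}

/-- `d` is a metric on `V`. -/
structure IsMetricFn (d : V → V → ℝ) : Prop where
  nonneg : ∀ i j, 0 ≤ d i j
  eq_zero_iff : ∀ i j, d i j = 0 ↔ i = j
  symm : ∀ i j, d i j = d j i
  triangle : ∀ i j k, d i k ≤ d i j + d j k

/-- The radius of influence of `i`: the infimum of the distances from `i` to the other points. -/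
noncomputable def radius (d : V → V → ℝ) (i : V) : ℝ := sInf {t | ∃ j, j ≠ i ∧ d i j = t}

/-- `d` is a SIG-metric for `G`. -/
structure IsSIGMetric (G : SimpleGraph V) (d : V → V → ℝ) : Prop where
  metric : IsMetricFn d
  adj : ∀ i j, i ≠ j → G.Adj i j → d i j < radius d i + radius d j
  not_adj : ∀ i j, i ≠ j → ¬ G.Adj i j → radius d i + radius d j ≤ d i j

/-- `(V, d)` embeds isometrically in `(ℝ ^ m, l_1)` for some `m ≥ 1`. -/
def IsL1Embeddable (d : V → V → ℝ) : Prop :=
  ∃ m : ℕ, 1 ≤ m ∧ ∃ X : V → Fin m → ℝ, ∀ i j, ∑ k, |X i k - X j k| = d i j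

section aux

variable [Fintype V] [DecidableEq V]

theorem exists_matching (G : SimpleGraph V) :
    ∃ f : V → V, (∀ v, f (f v) = v) ∧ (∀ v, f v ≠ v → G.Adj v (f v)) ∧
      (∀ u w, f u = u → f w = w → ¬ G.Adj u w) := by
  classical
  let Q : ℕ → Prop := fun n => ∃ f : V → V, (∀ v, f (f v) = v) ∧
    (∀ v, f v ≠ v → G.Adj v (f v)) ∧ (univ.filter (fun v => f v = v)).card = n
  have hQ : ∃ n, Q n := ⟨_, id, fun v => rfl, fun v h => absurd rfl h, rfl⟩
  obtain ⟨f, hf1, hf2, hf3⟩ := Nat.find_spec hQ
  refine ⟨f, hf1, hf2, ?_⟩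
  intro u w hu hw huw
  have hne : u ≠ w := huw.ne
  let f' : V → V := fun v => if v = u then w else if v = w then u else f v
  have hfu : ∀ v, v ≠ u → f v ≠ u := by
    intro v hv h
    apply hv
    rw [← hf1 v, h, hu]
  have hfw : ∀ v, v ≠ w → f v ≠ w := by
    intro v hv h
    apply hv
    rw [← hf1 v, h, hw]
  have h1 : ∀ v, f' (f' v) = v := by
    intro v
    by_cases hvu : v = u
    · subst hvu
      simp only [f', if_true]
      simp [hne.symm]
    · by_cases hvw : v = w
      · subst hvw
        simp [f', hvu]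
      · simp [f', hvu, hvw, hfu v hvu, hfw v hvw, hf1 v]
  have h2 : ∀ v, f' v ≠ v → G.Adj v (f' v) := by
    intro v hv
    by_cases hvu : v = u
    · subst hvu
      simpa [f'] using huw
    · by_cases hvw : v = w
      · subst hvw
        simpa [f', hvu] using huw.symm
      · simp only [f', hvu, hvw, if_false] at hv ⊢
        exact hf2 v hv
  have h3 : Q (univ.filter (fun v => f' v = v)).card := ⟨f', h1, h2, rfl⟩
  have h4 := Nat.find_min' hQ h3
  rw [← hf3] at h4
  have h5 : univ.filter (fun v => f' v = v) ⊂ univ.filter (fun v => f v = v) := by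
    rw [Finset.ssubset_iff_of_subset]
    · refine ⟨u, by simp [hu], ?_⟩
      simp [f', hne.symm]
    · intro v hv
      simp only [mem_filter, mem_univ, true_and] at hv ⊢
      by_cases hvu : v = u
      · subst hvu; exact hu
      · by_cases hvw : v = w
        · subst hvw; exact hw
        · simpa [f', hvu, hvw] using hv
  have h6 := Finset.card_lt_card h5
  omega

omit [DecidableEq V] in
theorem exists_scale (f : V → V) (hf : ∀ v, f (f v) = v) (K : ℝ) (hK : 1 ≤ K) :
    ∃ (ρ : V → ℝ) (rep : V → V), (∀ v, ρ (f v) = ρ v) ∧ (∀ v, K ≤ ρ v) ∧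
      (∀ u v, u ≠ v → u ≠ f v → K * ρ u ≤ ρ v ∨ K * ρ v ≤ ρ u) ∧
      (∀ u v, rep u = rep v ↔ (u = v ∨ u = f v)) ∧ (∀ v, ρ (rep v) = ρ v) := by
  classical
  let e := Fintype.equivFin V
  let ix : V → ℕ := fun v => min (e v : ℕ) (e (f v) : ℕ)
  have hix : ∀ v, ix (f v) = ix v := by
    intro v
    simp only [ix, hf v]
    exact min_comm _ _
  have hinj : ∀ u v, (e u : ℕ) = (e v : ℕ) → u = v := by
    intro u v h
    exact e.injective (Fin.ext h)
  have hixe : ∀ u v, ix u = ix v → (u = v ∨ u = f v) := by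
    intro u v h
    simp only [ix] at h
    rcases min_choice (e u : ℕ) (e (f u) : ℕ) with h1 | h1 <;>
    rcases min_choice (e v : ℕ) (e (f v) : ℕ) with h2 | h2 <;> rw [h1, h2] at h
    · exact Or.inl (hinj _ _ h)
    · exact Or.inr (hinj _ _ h)
    · right
      have := hinj _ _ h
      rw [← this, hf]
    · left
      have := hinj _ _ h
      rw [← hf u, this, hf]
  let rep : V → V := fun v => if (e v : ℕ) ≤ (e (f v) : ℕ) then v else f v
  have hrep : ∀ v, rep v = v ∨ rep v = f v := by
    intro v
    by_cases h : (e v : ℕ) ≤ (e (f v) : ℕ)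
    · left; simp only [rep, h, if_true]
    · right; simp only [rep, h, if_false]
  have hrepf : ∀ v, rep (f v) = rep v := by
    intro v
    simp only [rep, hf]
    rcases lt_trichotomy (e v : ℕ) (e (f v) : ℕ) with h | h | h
    · rw [if_neg (by omega), if_pos (by omega)]
    · have := hinj _ _ h
      rw [if_pos (by omega), if_pos (by omega), ← this]
    · rw [if_pos (by omega), if_neg (by omega)]
  refine ⟨fun v => K ^ (ix v + 1), rep, ?_, ?_, ?_, ?_, ?_⟩
  · intro v
    simp only [hix]
  · intro v
    have : K ^ 1 ≤ K ^ (ix v + 1) := pow_le_pow_right₀ hK (by omega)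
    simpa using this
  · intro u v h1 h2
    have hne : ix u ≠ ix v := by
      intro h
      rcases hixe u v h with h3 | h3
      · exact h1 h3
      · exact h2 h3
    rcases Nat.lt_or_gt_of_ne hne with h | h
    · left
      have : K * K ^ (ix u + 1) = K ^ (ix u + 1 + 1) := by ring
      rw [this]
      exact pow_le_pow_right₀ hK (by omega)
    · right
      have : K * K ^ (ix v + 1) = K ^ (ix v + 1 + 1) := by ring
      rw [this]
      exact pow_le_pow_right₀ hK (by omega)
  · intro u v
    constructor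
    · intro h
      rcases hrep u with h1 | h1 <;> rcases hrep v with h2 | h2 <;> rw [h1, h2] at h
      · exact Or.inl h
      · exact Or.inr h
      · right; rw [← h, hf]
      · left; rw [← hf u, h, hf]
    · rintro (h | h)
      · rw [h]
      · rw [h, hrepf]
  · intro v
    rcases hrep v with h | h
    · simp only [h]
    · simp only [h, hix]

/-- star metric lemma -/
theorem star_sum (w : V → ℝ) (hw : ∀ v, 0 ≤ w v) (p q : V) :
    ∑ i, |(if i = p then w i else 0) - (if i = q then w i else 0)| =
      if p = q then 0 else w p + w q := by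
  by_cases h : p = q
  · subst h; simp
  · rw [if_neg h]
    have : ∀ i, |(if i = p then w i else 0) - (if i = q then w i else 0)| =
        (if i = p then w i else 0) + (if i = q then w i else 0) := by
      intro i
      by_cases h1 : i = p
      · subst h1
        rw [if_pos rfl, if_neg h]
        simp [abs_of_nonneg (hw i)]
      · by_cases h2 : i = q
        · subst h2
          simp [h1, abs_of_nonneg (hw i)]
        · simp [h1, h2]
    simp_rw [this]
    rw [Finset.sum_add_distrib]
    simp

/-- The merged cuts lemma. -/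
theorem merge_sum (h T : V → ℝ) (t : V → V → ℝ) (ht : ∀ u v, 0 ≤ t u v)
    (hts : ∀ u v, t u v = t v u) (hT : ∀ v, T v = ∑ u, t u v) (hTh : ∀ v, T v ≤ h v)
    (A B : Finset V) :
    ∑ v, |(h v - T v) * (if v ∈ A then 1 else 0) - (h v - T v) * (if v ∈ B then 1 else 0)| +
      ∑ p : V × V, |(t p.1 p.2 / 2) * ((if p.1 ∈ A then 1 else 0) + (if p.2 ∈ A then 1 else 0)) -
        (t p.1 p.2 / 2) * ((if p.1 ∈ B then 1 else 0) + (if p.2 ∈ B then 1 else 0))| =
      ∑ v ∈ A \ B, h v + ∑ v ∈ B \ A, h v - 2 * ∑ u ∈ A \ B, ∑ v ∈ B \ A, t u v := by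
  classical
  let p : V → ℝ := fun v => if v ∈ A \ B then 1 else 0
  let q : V → ℝ := fun v => if v ∈ B \ A then 1 else 0
  have e1 : ∀ v, ((if v ∈ A then (1:ℝ) else 0) - (if v ∈ B then (1:ℝ) else 0)) = p v - q v := by
    intro v
    by_cases h1 : v ∈ A <;> by_cases h2 : v ∈ B <;> simp [p, q, h1, h2]
  have e0 : ∀ v, |p v - q v| = p v + q v := by
    intro v
    by_cases h1 : v ∈ A <;> by_cases h2 : v ∈ B <;> simp [p, q, h1, h2]
  have e2 : ∀ u v, |p u + p v - q u - q v| = (p u + q u) + (p v + q v) - 2 * (p u * q v + q u * p v) := by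
    intro u v
    by_cases h1 : u ∈ A <;> by_cases h2 : u ∈ B <;> by_cases h3 : v ∈ A <;> by_cases h4 : v ∈ B <;>
      simp [p, q, h1, h2, h3, h4] <;> norm_num
  have s1 : ∑ v, |(h v - T v) * (if v ∈ A then 1 else 0) - (h v - T v) * (if v ∈ B then 1 else 0)|
      = ∑ v, (h v - T v) * (p v + q v) := by
    refine Finset.sum_congr rfl fun v _ => ?_
    rw [← mul_sub, e1, abs_mul, e0, abs_of_nonneg (sub_nonneg.2 (hTh v))]
  have s2 : ∑ x : V × V, |(t x.1 x.2 / 2) * ((if x.1 ∈ A then 1 else 0) + (if x.2 ∈ A then 1 else 0)) -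
        (t x.1 x.2 / 2) * ((if x.1 ∈ B then 1 else 0) + (if x.2 ∈ B then 1 else 0))| =
      ∑ u, ∑ v, (t u v / 2) * ((p u + q u) + (p v + q v) - 2 * (p u * q v + q u * p v)) := by
    rw [Fintype.sum_prod_type]
    refine Finset.sum_congr rfl fun u _ => Finset.sum_congr rfl fun v _ => ?_
    rw [← mul_sub, abs_mul, abs_of_nonneg (by have := ht u v; positivity), ← e2 u v]
    congr 2
    have h1 := e1 u
    have h2 := e1 v
    linarith
  rw [s1, s2]
  have s3 : ∑ u, ∑ v, (t u v / 2) * ((p u + q u) + (p v + q v) - 2 * (p u * q v + q u * p v)) =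
      ∑ v, T v * (p v + q v) - 2 * ∑ u, ∑ v, t u v * (p u * q v) := by
    have a1 : ∑ u, ∑ v, (t u v / 2) * (p u + q u) = (1/2) * ∑ v, T v * (p v + q v) := by
      rw [Finset.mul_sum]
      refine Finset.sum_congr rfl fun u _ => ?_
      rw [hT u, ← Finset.sum_mul]
      have : ∑ v, t u v / 2 = (1/2) * ∑ v, t v u := by
        rw [Finset.mul_sum]
        refine Finset.sum_congr rfl fun v _ => ?_
        rw [hts u v]; ring
      rw [this]; ring
    have a2 : ∑ u, ∑ v, (t u v / 2) * (p v + q v) = (1/2) * ∑ v, T v * (p v + q v) := by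
      rw [Finset.sum_comm, Finset.mul_sum]
      refine Finset.sum_congr rfl fun v _ => ?_
      rw [hT v, ← Finset.sum_mul]
      have : ∑ u, t u v / 2 = (1/2) * ∑ u, t u v := by
        rw [Finset.mul_sum]
        refine Finset.sum_congr rfl fun u _ => ?_
        ring
      rw [this]; ring
    have a3 : ∑ u, ∑ v, t u v * (q u * p v) = ∑ u, ∑ v, t u v * (p u * q v) := by
      rw [Finset.sum_comm]
      refine Finset.sum_congr rfl fun u _ => Finset.sum_congr rfl fun v _ => ?_
      rw [hts v u]; ring
    have a4 : ∑ u, ∑ v, (t u v / 2) * ((p u + q u) + (p v + q v) - 2 * (p u * q v + q u * p v)) =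
        ∑ u, ∑ v, (t u v / 2) * (p u + q u) + ∑ u, ∑ v, (t u v / 2) * (p v + q v)
          - (∑ u, ∑ v, t u v * (p u * q v) + ∑ u, ∑ v, t u v * (q u * p v)) := by
      simp only [← Finset.sum_add_distrib, ← Finset.sum_sub_distrib]
      refine Finset.sum_congr rfl fun u _ => Finset.sum_congr rfl fun v _ => ?_
      ring
    rw [a4, a1, a2, a3]; ring
  rw [s3]
  have s4 : ∑ v, (h v - T v) * (p v + q v) = ∑ v, h v * (p v + q v) - ∑ v, T v * (p v + q v) := by
    rw [← Finset.sum_sub_distrib]
    refine Finset.sum_congr rfl fun v _ => ?_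
    ring
  have s5 : ∑ v, h v * (p v + q v) = ∑ v ∈ A \ B, h v + ∑ v ∈ B \ A, h v := by
    have : ∀ v, h v * (p v + q v) = (if v ∈ A \ B then h v else 0) + (if v ∈ B \ A then h v else 0) := by
      intro v
      simp only [p, q]
      split_ifs <;> ring
    simp_rw [this]
    rw [Finset.sum_add_distrib]
    simp only [Finset.sum_ite_mem, Finset.univ_inter]
  have s6 : ∑ u, ∑ v, t u v * (p u * q v) = ∑ u ∈ A \ B, ∑ v ∈ B \ A, t u v := by
    have : ∀ u, ∑ v, t u v * (p u * q v) = if u ∈ A \ B then ∑ v ∈ B \ A, t u v else 0 := by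
      intro u
      by_cases hu : u ∈ A \ B
      · rw [if_pos hu]
        have : ∀ v, t u v * (p u * q v) = if v ∈ B \ A then t u v else 0 := by
          intro v
          simp only [p, q, if_pos hu]
          split_ifs <;> simp
        simp_rw [this]
        simp only [Finset.sum_ite_mem, Finset.univ_inter]
      · rw [if_neg hu]
        apply Finset.sum_eq_zero
        intro v _
        simp only [p, if_neg hu]
        simp
    simp_rw [this]
    simp only [Finset.sum_ite_mem, Finset.univ_inter]
  rw [s4, s5, s6]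
  ring

/-- The embedding into `ℝ ^ (V ⊕ V × V ⊕ V)`. -/
noncomputable def emb (h T ρ : V → ℝ) (t : V → V → ℝ) (A : V → Finset V) (c rep : V → V) (x : V) :
    V ⊕ (V × V) ⊕ V → ℝ
  | Sum.inl v => (h v - T v) * (if v ∈ A x then 1 else 0)
  | Sum.inr (Sum.inl p) => (t p.1 p.2 / 2) * ((if p.1 ∈ A x then 1 else 0) + (if p.2 ∈ A x then 1 else 0))
  | Sum.inr (Sum.inr v) => if v = rep (c x) then ρ v / 2 else 0

theorem emb_dist (h T ρ : V → ℝ) (t : V → V → ℝ) (A : V → Finset V) (c rep : V → V)
    (ht : ∀ u v, 0 ≤ t u v)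
    (hts : ∀ u v, t u v = t v u) (hT : ∀ v, T v = ∑ u, t u v) (hTh : ∀ v, T v ≤ h v)
    (hρ : ∀ v, 0 ≤ ρ v) (hrep : ∀ v, ρ (rep v) = ρ v) (x y : V) :
    ∑ k, |emb h T ρ t A c rep x k - emb h T ρ t A c rep y k| =
      ∑ v ∈ A x \ A y, h v + ∑ v ∈ A y \ A x, h v - 2 * ∑ u ∈ A x \ A y, ∑ v ∈ A y \ A x, t u v +
      (if rep (c x) = rep (c y) then 0 else (ρ (c x) + ρ (c y)) / 2) := by
  rw [Fintype.sum_sum_type, Fintype.sum_sum_type, ← add_assoc]
  congr 1
  · exact merge_sum h T t ht hts hT hTh (A x) (A y)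
  · have := star_sum (fun v => ρ v / 2) (fun v => by have := hρ v; positivity) (rep (c x)) (rep (c y))
    simp only [emb]
    rw [this]
    split_ifs
    · rfl
    · rw [hrep, hrep]; ring

/-- The main construction. -/
theorem core (G : SimpleGraph V) (hG : ∀ v, ∃ w, G.Adj v w) :
    ∃ (X : V → (V ⊕ (V × V) ⊕ V) → ℝ) (r : V → ℝ), (∀ x, 0 < r x) ∧
      (∀ x y, x ≠ y → r x ≤ ∑ k, |X x k - X y k|) ∧
      (∀ x, ∃ y, y ≠ x ∧ ∑ k, |X x k - X y k| = r x) ∧
      (∀ x y, x ≠ y → G.Adj x y → ∑ k, |X x k - X y k| < r x + r y) ∧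
      (∀ x y, x ≠ y → ¬ G.Adj x y → r x + r y ≤ ∑ k, |X x k - X y k|) := by
  classical
  obtain ⟨f, hf, hfadj, hmax⟩ := exists_matching G
  set n : ℝ := (Fintype.card V : ℝ) with hn
  by_cases hV : IsEmpty V
  · exact ⟨fun x => (hV.false x).elim, fun x => (hV.false x).elim, fun x => (hV.false x).elim,
      fun x => (hV.false x).elim, fun x => (hV.false x).elim, fun x => (hV.false x).elim,
      fun x => (hV.false x).elim⟩
  rw [not_isEmpty_iff] at hV
  have hn1 : 1 ≤ n := by
    rw [hn]
    exact_mod_cast Fintype.card_pos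
  obtain ⟨ρ, rep, hρf, hρK, hρs, hrep, hρrep⟩ := exists_scale f hf (2 * n) (by linarith)
  have hρ2 : ∀ v, 2 ≤ ρ v := fun v => by have := hρK v; linarith
  -- matched neighbours of an unmatched vertex
  have hcen : ∀ v, f v = v → ∃ c, G.Adj v c ∧ ∀ y, G.Adj v y → ρ c ≤ ρ y := by
    intro v _
    obtain ⟨w, hw⟩ := hG v
    obtain ⟨c, hc1, hc2⟩ := Finset.exists_min_image (univ.filter (fun y => G.Adj v y)) ρ
      ⟨w, by simpa using hw⟩
    refine ⟨c, by simpa using hc1, fun y hy => hc2 y (by simpa using hy)⟩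
  choose! c0 hc0adj hc0min using hcen
  let c : V → V := fun v => if f v = v then c0 v else v
  have hcU : ∀ v, f v = v → c v = c0 v := fun v h => by simp only [c, h, if_true]
  have hcM : ∀ v, f v ≠ v → c v = v := fun v h => by simp only [c, h, if_false]
  have hUadj : ∀ v, f v = v → ∀ y, G.Adj v y → f y ≠ y := by
    intro v hv y hy hfy
    exact hmax v y hv hfy hy
  have hcMat : ∀ v, f (c v) ≠ c v := by
    intro v
    by_cases h : f v = v
    · rw [hcU v h]; exact hUadj v h _ (hc0adj v h)
    · rw [hcM v h]; exact h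
  let A : V → Finset V := fun v => {v, c v}
  let R : ℝ := ∑ v, ρ v
  let h : V → ℝ := fun v => if f v = v then R else ρ v / 2
  have hρR : ∀ v, ρ v ≤ R := by
    intro v
    exact Finset.single_le_sum (f := ρ) (fun i _ => by have := hρ2 i; linarith) (mem_univ v)
  -- the merging weights
  let tU : V → V → ℝ := fun l y =>
    if G.Adj l y ∧ y ≠ c l then (if y = f (c l) then 1/4 else ρ (c l) / 2 + 1/4) else 0
  let t : V → V → ℝ := fun u v =>
    if f u = u then (if f v = v then 0 else tU u v)
    else (if f v = v then tU v u else (if G.Adj u v ∧ v ≠ f u then 1/4 else 0))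
  have htU0 : ∀ l y, 0 ≤ tU l y := by
    intro l y
    simp only [tU]
    have := hρ2 (c l)
    split_ifs <;> linarith
  have ht0 : ∀ u v, 0 ≤ t u v := by
    intro u v
    simp only [t]
    have h1 := htU0 u v
    have h2 := htU0 v u
    split_ifs <;> linarith
  have hts : ∀ u v, t u v = t v u := by
    intro u v
    simp only [t]
    by_cases h1 : f u = u <;> by_cases h2 : f v = v <;> simp only [h1, h2, if_true, if_false]
    have : (G.Adj u v ∧ v ≠ f u) ↔ (G.Adj v u ∧ u ≠ f v) := by
      constructor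
      · rintro ⟨a, b⟩
        exact ⟨a.symm, fun e => b (by rw [e, hf])⟩
      · rintro ⟨a, b⟩
        exact ⟨a.symm, fun e => b (by rw [e, hf])⟩
    simp only [this]
  -- values
  have htMM : ∀ u v, f u ≠ u → f v ≠ v → G.Adj u v → v ≠ f u → t u v = 1/4 := by
    intro u v h1 h2 h3 h4
    simp only [t, h1, h2, if_false]
    rw [if_pos ⟨h3, h4⟩]
  have htMMf : ∀ u v, f u ≠ u → f v ≠ v → v = f u → t u v = 0 := by
    intro u v h1 h2 h3
    simp only [t, h1, h2, if_false]
    rw [if_neg (fun e => e.2 h3)]
  have htMMn : ∀ u v, f u ≠ u → f v ≠ v → ¬ G.Adj u v → t u v = 0 := by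
    intro u v h1 h2 h3
    simp only [t, h1, h2, if_false]
    rw [if_neg (fun e => h3 e.1)]
  have htMMle : ∀ u v, f u ≠ u → f v ≠ v → t u v ≤ 1/4 := by
    intro u v h1 h2
    simp only [t, h1, h2, if_false]
    split_ifs <;> norm_num
  have htUM : ∀ l y, f l = l → f y ≠ y → t l y = tU l y := by
    intro l y h1 h2
    simp only [t, h1, h2, if_false, if_true]
  have htUU : ∀ l l', f l = l → f l' = l' → t l l' = 0 := by
    intro l l' h1 h2
    simp only [t, h1, h2, if_true]
  have htUn : ∀ l y, ¬ G.Adj l y → tU l y = 0 := by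
    intro l y h1
    simp only [tU]
    rw [if_neg (fun e => h1 e.1)]
  have htUc : ∀ l, tU l (c l) = 0 := by
    intro l
    simp only [tU]
    rw [if_neg (fun e => e.2 rfl)]
  have htUf : ∀ l y, G.Adj l y → y = f (c l) → tU l y = 1/4 := by
    intro l y h1 h2
    simp only [tU]
    rw [if_pos ⟨h1, by rw [h2]; exact hcMat l⟩, if_pos h2]
  have htUfle : ∀ l y, y = f (c l) → tU l y ≤ 1/4 := by
    intro l y h2
    by_cases h1 : G.Adj l y
    · exact (htUf l y h1 h2).le
    · rw [htUn l y h1]; norm_num
  have htUg : ∀ l y, G.Adj l y → y ≠ c l → y ≠ f (c l) → tU l y = ρ (c l) / 2 + 1/4 := by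
    intro l y h1 h2 h3
    simp only [tU]
    rw [if_pos ⟨h1, h2⟩, if_neg h3]
  have htUgle : ∀ l y, tU l y ≤ ρ (c l) / 2 + 1/4 := by
    intro l y
    simp only [tU]
    have := hρ2 (c l)
    split_ifs <;> linarith
  -- capacity at matched vertices
  have hcl : ∀ l y, f l = l → G.Adj l y → y ≠ c l → y ≠ f (c l) → 2 * n * ρ (c l) ≤ ρ y := by
    intro l y h1 h2 h3 h4
    have h5 : ρ (c l) ≤ ρ y := by rw [hcU l h1]; exact hc0min l h1 y h2
    rcases hρs (c l) y (fun e => h3 e.symm) (fun e => h4 (by rw [e, hf])) with h6 | h6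
    · exact h6
    · exfalso
      have := hρ2 y
      have := hρ2 (c l)
      nlinarith
  have htcapU : ∀ l y, f l = l → tU l y ≤ ρ y / (2 * n) := by
    intro l y h1
    have hy := hρK y
    have hn2 : 0 < 2 * n := by linarith
    have h1y : 1 ≤ ρ y / (2 * n) := by rw [le_div_iff₀ hn2]; linarith
    by_cases h2 : G.Adj l y
    · by_cases h3 : y = c l
      · rw [h3, htUc]; rw [h3] at h1y; linarith
      · by_cases h4 : y = f (c l)
        · rw [htUf l y h2 h4]; linarith
        · have h5 := hcl l y h1 h2 h3 h4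
          have h6 : ρ (c l) ≤ ρ y / (2 * n) := by rw [le_div_iff₀ hn2]; linarith
          rw [htUg l y h2 h3 h4]
          have := hρ2 (c l)
          linarith
    · rw [htUn l y h2]; linarith
  have htcap : ∀ u y, f y ≠ y → t u y ≤ ρ y / (2 * n) := by
    intro u y h1
    have hy := hρK y
    have hn2 : 0 < 2 * n := by linarith
    have h1y : 1 ≤ ρ y / (2 * n) := by rw [le_div_iff₀ hn2]; linarith
    by_cases h2 : f u = u
    · rw [htUM u y h2 h1]; exact htcapU u y h2
    · have := htMMle u y h2 h1; linarith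
  have htcap2 : ∀ l y, f l = l → t y l ≤ ρ y := by
    intro l y h1
    by_cases h2 : f y = y
    · rw [htUU y l h2 h1]; have := hρ2 y; linarith
    · rw [hts, htUM l y h1 h2]
      refine (htcapU l y h1).trans ?_
      have hn2 : 0 < 2 * n := by linarith
      rw [div_le_iff₀ hn2]
      have := hρ2 y
      nlinarith
  let T : V → ℝ := fun v => ∑ u, t u v
  have hTh : ∀ v, T v ≤ h v := by
    intro v
    by_cases h1 : f v = v
    · simp only [h, h1, if_true, T, R]
      exact Finset.sum_le_sum fun u _ => htcap2 v u h1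
    · simp only [h, h1, if_false, T]
      calc ∑ u, t u v ≤ ∑ _u : V, ρ v / (2 * n) := Finset.sum_le_sum fun u _ => htcap u v h1
        _ = n * (ρ v / (2 * n)) := by rw [Finset.sum_const, card_univ, nsmul_eq_mul]
        _ = ρ v / 2 := by field_simp
  have key := emb_dist h T ρ t A c rep ht0 hts (fun v => rfl) hTh
    (fun v => by have := hρ2 v; linarith) hρrep
  set X := emb h T ρ t A c rep with hX
  set D : V → V → ℝ := fun x y => ∑ k, |X x k - X y k| with hD
  have key' : ∀ x y, D x y = ∑ v ∈ A x \ A y, h v + ∑ v ∈ A y \ A x, h v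
      - 2 * ∑ u ∈ A x \ A y, ∑ v ∈ A y \ A x, t u v +
      (if rep (c x) = rep (c y) then 0 else (ρ (c x) + ρ (c y)) / 2) := key
  have hDs : ∀ x y, D x y = D y x := by
    intro x y
    simp only [hD]
    exact Finset.sum_congr rfl fun k _ => abs_sub_comm _ _
  have hhU : ∀ v, f v = v → h v = R := fun v hv => by simp only [h, hv, if_true]
  have hhM : ∀ v, f v ≠ v → h v = ρ v / 2 := fun v hv => by simp only [h, hv, if_false]
  have hAM : ∀ v, f v ≠ v → A v = {v} := fun v hv => by simp only [A, hcM v hv]; simp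
  have hAU : ∀ v, A v = {v, c v} := fun v => rfl
  -- distances
  have dMM : ∀ x y, f x ≠ x → f y ≠ y → x ≠ y → y ≠ f x → D x y = ρ x + ρ y - 2 * t x y := by
    intro x y h1 h2 h3 h4
    rw [key', hAM x h1, hAM y h2, hcM x h1, hcM y h2]
    have e1 : ({x} : Finset V) \ {y} = {x} := by
      ext z; simp only [mem_sdiff, mem_singleton]
      constructor
      · exact fun a => a.1
      · intro a; exact ⟨a, by rw [a]; exact h3⟩
    have e2 : ({y} : Finset V) \ {x} = {y} := by
      ext z; simp only [mem_sdiff, mem_singleton]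
      constructor
      · exact fun a => a.1
      · intro a; exact ⟨a, by rw [a]; exact h3.symm⟩
    rw [e1, e2]
    simp only [sum_singleton]
    rw [hhM x h1, hhM y h2, if_neg]
    · ring
    · rw [hrep]
      rintro (e | e)
      · exact h3 e
      · exact h4 (by rw [e, hf])
  have dMf : ∀ x, f x ≠ x → D x (f x) = ρ x := by
    intro x h1
    have h2 : f (f x) ≠ f x := by rw [hf]; exact h1.symm
    rw [key', hAM x h1, hAM _ h2, hcM x h1, hcM _ h2]
    have e1 : ({x} : Finset V) \ {f x} = {x} := by
      ext z; simp only [mem_sdiff, mem_singleton]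
      constructor
      · exact fun a => a.1
      · intro a; exact ⟨a, by rw [a]; exact h1.symm⟩
    have e2 : ({f x} : Finset V) \ {x} = {f x} := by
      ext z; simp only [mem_sdiff, mem_singleton]
      constructor
      · exact fun a => a.1
      · intro a; exact ⟨a, by rw [a]; exact h1⟩
    rw [e1, e2]
    simp only [sum_singleton]
    rw [hhM x h1, hhM _ h2, if_pos, htMMf x (f x) h1 h2 rfl, hρf]
    · ring
    · rw [hrep]; right; rw [hf]
  have hUM : ∀ l y, f l = l → f y ≠ y → l ≠ y := by
    intro l y h1 h2 e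
    rw [e] at h1; exact h2 h1
  have dUc : ∀ l, f l = l → D l (c l) = R := by
    intro l h1
    have h2 := hcMat l
    have h3 := hUM l (c l) h1 h2
    rw [key', hAM _ h2, hcM _ h2, hAU l]
    have e1 : ({l, c l} : Finset V) \ {c l} = {l} := by
      ext z; simp only [mem_sdiff, mem_singleton, mem_insert]
      constructor
      · rintro ⟨a | a, b⟩
        · exact a
        · exact absurd a b
      · intro a; exact ⟨Or.inl a, by rw [a]; exact h3⟩
    have e2 : ({c l} : Finset V) \ {l, c l} = ∅ := by
      ext z; simp only [mem_sdiff, mem_singleton, mem_insert, notMem_empty, iff_false]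
      rintro ⟨a, b⟩
      exact b (Or.inr a)
    rw [e1, e2]
    simp [hhU l h1]
  have dUM : ∀ l y, f l = l → f y ≠ y → y ≠ c l →
      D l y = R + ρ (c l) / 2 + ρ y / 2 - 2 * (tU l y + t (c l) y) +
        (if y = f (c l) then 0 else (ρ (c l) + ρ y) / 2) := by
    intro l y h1 h2 h3
    have h4 := hcMat l
    have h5 := hUM l (c l) h1 h4
    have h6 := hUM l y h1 h2
    rw [key', hAM _ h2, hcM _ h2, hAU l]
    have e1 : ({l, c l} : Finset V) \ {y} = {l, c l} := by
      ext z; simp only [mem_sdiff, mem_singleton, mem_insert]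
      constructor
      · rintro ⟨a, b⟩
        exact a
      · rintro (a | a)
        · exact ⟨Or.inl a, by rw [a]; exact h6⟩
        · exact ⟨Or.inr a, by rw [a]; exact h3.symm⟩
    have e2 : ({y} : Finset V) \ {l, c l} = {y} := by
      ext z; simp only [mem_sdiff, mem_singleton, mem_insert]
      constructor
      · rintro ⟨a, b⟩
        exact a
      · rintro a
        refine ⟨a, ?_⟩
        rw [a]
        rintro (b | b)
        · exact h6 b.symm
        · exact h3 b
    rw [e1, e2, Finset.sum_pair h5, Finset.sum_pair h5]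
    simp only [sum_singleton]
    rw [hhU l h1, hhM _ h4, hhM _ h2, htUM l y h1 h2]
    by_cases h7 : y = f (c l)
    · rw [if_pos h7, if_pos]
      rw [hrep]; right; rw [h7, hf]
    · rw [if_neg h7, if_neg]
      rw [hrep]
      rintro (e | e)
      · exact h3 e.symm
      · exact h7 (by rw [e, hf])
  have dUUs : ∀ l l', f l = l → f l' = l' → l ≠ l' → c l = c l' → D l l' = R + R := by
    intro l l' h1 h2 h3 h4
    have h5 := hUM l (c l) h1 (hcMat l)
    have h6 := hUM l' (c l) h2 (hcMat l)
    rw [key', hAU l, hAU l', ← h4]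
    have e1 : ({l, c l} : Finset V) \ {l', c l} = {l} := by
      ext z; simp only [mem_sdiff, mem_singleton, mem_insert]
      constructor
      · rintro ⟨a | a, b⟩
        · exact a
        · exact absurd (Or.inr a) b
      · intro a
        refine ⟨Or.inl a, ?_⟩
        rw [a]
        rintro (b | b)
        · exact h3 b
        · exact h5 b
    have e2 : ({l', c l} : Finset V) \ {l, c l} = {l'} := by
      ext z; simp only [mem_sdiff, mem_singleton, mem_insert]
      constructor
      · rintro ⟨a | a, b⟩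
        · exact a
        · exact absurd (Or.inr a) b
      · intro a
        refine ⟨Or.inl a, ?_⟩
        rw [a]
        rintro (b | b)
        · exact h3 b.symm
        · exact h6 b
    rw [e1, e2]
    simp only [sum_singleton]
    rw [hhU l h1, hhU l' h2, htUU l l' h1 h2]
    simp
  have dUUd : ∀ l l', f l = l → f l' = l' → l ≠ l' → c l ≠ c l' →
      D l l' = R + R + ρ (c l) / 2 + ρ (c l') / 2
        - 2 * (tU l (c l') + tU l' (c l) + t (c l) (c l')) +
        (if c l' = f (c l) then 0 else (ρ (c l) + ρ (c l')) / 2) := by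
    intro l l' h1 h2 h3 h4
    have m1 := hcMat l
    have m2 := hcMat l'
    have h5 := hUM l (c l) h1 m1
    have h6 := hUM l' (c l) h2 m1
    have h7 := hUM l (c l') h1 m2
    have h8 := hUM l' (c l') h2 m2
    rw [key', hAU l, hAU l']
    have e1 : ({l, c l} : Finset V) \ {l', c l'} = {l, c l} := by
      ext z; simp only [mem_sdiff, mem_singleton, mem_insert]
      constructor
      · rintro ⟨a, b⟩
        exact a
      · rintro (a | a)
        · refine ⟨Or.inl a, ?_⟩
          rw [a]
          rintro (b | b)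
          · exact h3 b
          · exact h7 b
        · refine ⟨Or.inr a, ?_⟩
          rw [a]
          rintro (b | b)
          · exact h6 b.symm
          · exact h4 b
    have e2 : ({l', c l'} : Finset V) \ {l, c l} = {l', c l'} := by
      ext z; simp only [mem_sdiff, mem_singleton, mem_insert]
      constructor
      · rintro ⟨a, b⟩
        exact a
      · rintro (a | a)
        · refine ⟨Or.inl a, ?_⟩
          rw [a]
          rintro (b | b)
          · exact h3 b.symm
          · exact h6 b
        · refine ⟨Or.inr a, ?_⟩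
          rw [a]
          rintro (b | b)
          · exact h7 b.symm
          · exact h4 b.symm
    rw [e1, e2, Finset.sum_pair h5, Finset.sum_pair h8, Finset.sum_pair h5, Finset.sum_pair h8,
      Finset.sum_pair h8]
    rw [hhU l h1, hhU l' h2, hhM _ m1, hhM _ m2, htUM l (c l') h1 m2, htUU l l' h1 h2,
      hts (c l) l', htUM l' (c l) h2 m1]
    by_cases h9 : c l' = f (c l)
    · rw [if_pos h9, if_pos]
      · ring
      rw [hrep]; right; rw [h9, hf]
    · rw [if_neg h9, if_neg]
      · ring
      rw [hrep]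
      rintro (e | e)
      · exact h4 e
      · exact h9 (by rw [e, hf])
  -- the radii
  let r : V → ℝ := fun v => if f v = v then R else ρ v
  have hrU : ∀ v, f v = v → r v = R := fun v hv => by simp only [r, hv, if_true]
  have hrM : ∀ v, f v ≠ v → r v = ρ v := fun v hv => by simp only [r, hv, if_false]
  have hR2 : 2 ≤ R := (hρ2 (Classical.choice hV)).trans (hρR _)
  -- estimates
  have estMM : ∀ x y, f x ≠ x → f y ≠ y → x ≠ y →
      (ρ x ≤ D x y ∧ ρ y ≤ D x y ∧ (G.Adj x y → D x y < ρ x + ρ y) ∧
        (¬ G.Adj x y → ρ x + ρ y ≤ D x y)) := by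
    intro x y h1 h2 h3
    have px := hρ2 x
    have py := hρ2 y
    by_cases h4 : y = f x
    · subst h4
      rw [dMf x h1, hρf]
      refine ⟨le_rfl, le_rfl, fun _ => by linarith, fun h5 => absurd (hfadj x h1) h5⟩
    · rw [dMM x y h1 h2 h3 h4]
      have h5 := htMMle x y h1 h2
      refine ⟨by linarith, by linarith, fun h6 => ?_, fun h6 => ?_⟩
      · rw [htMM x y h1 h2 h6 h4]; linarith
      · rw [htMMn x y h1 h2 h6]; linarith
  have estUM : ∀ l y, f l = l → f y ≠ y →
      (R ≤ D l y ∧ ρ y ≤ D l y ∧ (G.Adj l y → D l y < R + ρ y) ∧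
        (¬ G.Adj l y → R + ρ y ≤ D l y)) := by
    intro l y h1 h2
    have pc := hρ2 (c l)
    have py := hρ2 y
    have hRy := hρR y
    by_cases h3 : y = c l
    · subst h3
      rw [dUc l h1]
      refine ⟨le_rfl, hRy, fun _ => by linarith, fun h5 => ?_⟩
      exfalso
      apply h5
      rw [hcU l h1]; exact hc0adj l h1
    · rw [dUM l y h1 h2 h3]
      by_cases h4 : y = f (c l)
      · rw [if_pos h4, htMMf (c l) y (hcMat l) h2 h4]
        have h5 := htUfle l y h4
        have h6 : ρ y = ρ (c l) := by rw [h4, hρf]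
        refine ⟨by linarith, by linarith, fun h7 => ?_, fun h7 => ?_⟩
        · rw [htUf l y h7 h4]; linarith
        · rw [htUn l y h7]; linarith
      · rw [if_neg h4]
        have h5 := htMMle (c l) y (hcMat l) h2
        have h6 := htUgle l y
        have h8 := ht0 (c l) y
        refine ⟨by linarith, by linarith, fun h7 => ?_, fun h7 => ?_⟩
        · rw [htUg l y h7 h3 h4]; linarith
        · rw [htUn l y h7]; linarith
  have estUU : ∀ l l', f l = l → f l' = l' → l ≠ l' → R + R ≤ D l l' := by
    intro l l' h1 h2 h3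
    by_cases h4 : c l = c l'
    · rw [dUUs l l' h1 h2 h3 h4]
    · rw [dUUd l l' h1 h2 h3 h4]
      have m1 := hcMat l
      have m2 := hcMat l'
      have p1 := hρ2 (c l)
      have p2 := hρ2 (c l')
      by_cases h9 : c l' = f (c l)
      · rw [if_pos h9, htMMf (c l) (c l') m1 m2 h9]
        have a1 := htUfle l (c l') h9
        have a2 := htUfle l' (c l) (by rw [h9, hf])
        linarith
      · rw [if_neg h9]
        have a3 := htMMle (c l) (c l') m1 m2
        have a1 := htUgle l (c l')
        have a2 := htUgle l' (c l)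
        by_cases b1 : G.Adj l (c l')
        · by_cases b2 : G.Adj l' (c l)
          · exfalso
            have c1 := hcl l (c l') h1 b1 (fun e => h4 e.symm) h9
            have c2 := hcl l' (c l) h2 b2 h4 (fun e => h9 (by rw [e, hf]))
            nlinarith
          · rw [htUn l' (c l) b2]; linarith
        · rw [htUn l (c l') b1]; linarith
  refine ⟨X, r, ?_, ?_, ?_, ?_, ?_⟩
  · intro x
    by_cases h1 : f x = x
    · rw [hrU x h1]; linarith
    · rw [hrM x h1]; have := hρ2 x; linarith
  · intro x y hxy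
    change r x ≤ D x y
    by_cases h1 : f x = x <;> by_cases h2 : f y = y
    · rw [hrU x h1]; have := estUU x y h1 h2 hxy; linarith
    · rw [hrU x h1]; exact (estUM x y h1 h2).1
    · rw [hrM x h1, hDs]; exact (estUM y x h2 h1).2.1
    · rw [hrM x h1]; exact (estMM x y h1 h2 hxy).1
  · intro x
    by_cases h1 : f x = x
    · refine ⟨c x, (hUM x (c x) h1 (hcMat x)).symm, ?_⟩
      rw [hrU x h1]; exact dUc x h1
    · refine ⟨f x, h1, ?_⟩
      rw [hrM x h1]; exact dMf x h1
  · intro x y hxy hadj
    change D x y < r x + r y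
    by_cases h1 : f x = x <;> by_cases h2 : f y = y
    · exact absurd hadj (hmax x y h1 h2)
    · rw [hrU x h1, hrM y h2]; exact (estUM x y h1 h2).2.2.1 hadj
    · rw [hrM x h1, hrU y h2, hDs, add_comm]; exact (estUM y x h2 h1).2.2.1 hadj.symm
    · rw [hrM x h1, hrM y h2]; exact (estMM x y h1 h2 hxy).2.2.1 hadj
  · intro x y hxy hadj
    change r x + r y ≤ D x y
    by_cases h1 : f x = x <;> by_cases h2 : f y = y
    · rw [hrU x h1, hrU y h2]; exact estUU x y h1 h2 hxy
    · rw [hrU x h1, hrM y h2]; exact (estUM x y h1 h2).2.2.2 hadj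
    · rw [hrM x h1, hrU y h2, hDs, add_comm]
      exact (estUM y x h2 h1).2.2.2 (fun e => hadj e.symm)
    · rw [hrM x h1, hrM y h2]; exact (estMM x y h1 h2 hxy).2.2.2 hadj

end aux

/-- **Main theorem.** Every finite connected simple graph with at least two vertices admits a
SIG-metric that is `l_1`-embeddable. -/
theorem result {V : Type*} [Fintype V] (G : SimpleGraph V) (hG : G.Connected)
    (hV : 2 ≤ Fintype.card V) :
    ∃ d : V → V → ℝ, IsSIGMetric G d ∧ IsL1Embeddable d := by
  classical
  have hiso : ∀ v, ∃ w, G.Adj v w := by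
    intro v
    obtain ⟨w, hw⟩ := Fintype.exists_ne_of_one_lt_card (by omega) v
    have : Nontrivial V := ⟨v, w, hw.symm⟩
    obtain ⟨u, hu⟩ := hG.preconnected.exists_adj_of_nontrivial v
    exact ⟨u, hu⟩
  obtain ⟨X, r, hr0, hr1, hr2, hadj, hnadj⟩ := core G hiso
  let d : V → V → ℝ := fun x y => ∑ k, |X x k - X y k|
  have hrad : ∀ i, radius d i = r i := by
    intro i
    apply le_antisymm
    · obtain ⟨y, hy, hy2⟩ := hr2 i
      refine csInf_le ⟨0, ?_⟩ ⟨y, hy, hy2⟩
      rintro t ⟨j, _, rfl⟩
      exact Finset.sum_nonneg fun k _ => abs_nonneg _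
    · obtain ⟨y, hy, hy2⟩ := hr2 i
      refine le_csInf ⟨_, y, hy, hy2⟩ ?_
      rintro t ⟨j, hj, rfl⟩
      exact hr1 i j hj.symm
  refine ⟨d, ⟨⟨?_, ?_, ?_, ?_⟩, ?_, ?_⟩, ?_⟩
  · intro i j
    exact Finset.sum_nonneg fun k _ => abs_nonneg _
  · intro i j
    constructor
    · intro h
      by_contra hne
      have := hr1 i j hne
      have h2 := hr0 i
      change r i ≤ d i j at this
      linarith
    · rintro rfl
      simp [d]
  · intro i j
    exact Finset.sum_congr rfl fun k _ => abs_sub_comm _ _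
  · intro i j k
    simp only [d]
    rw [← Finset.sum_add_distrib]
    exact Finset.sum_le_sum fun m _ => abs_sub_le _ _ _
  · intro i j hij h
    rw [hrad, hrad]; exact hadj i j hij h
  · intro i j hij h
    rw [hrad, hrad]; exact hnadj i j hij h
  · let e := Fintype.equivFin (V ⊕ (V × V) ⊕ V)
    refine ⟨Fintype.card (V ⊕ (V × V) ⊕ V), ?_, fun v k => X v (e.symm k), ?_⟩
    · have : Nonempty V := hG.nonempty
      exact Fintype.card_pos
    · intro i j
      exact Fintype.sum_equiv e.symm _ _ (fun k => rfl)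

end Pool.Agent.Results.MP_d14146_co.L1SigMetric
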